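import Mathlib
import Pool.Agent.R328.VJ

/-!
# Pairs of polynomials of small height, and levels of a polynomial of small Mahler measure, are
proportional on faces of small codimension

Boyd's set `L` of the Mahler measures of integer polynomials in any number of variables would be
closed if polynomials of bounded Mahler measure could be written with a bounded number of variables.
Here is an explicit statement in this direction, for all pairs `A`, `B`: at every vertex `(a, b)` of the
pair (unique minima of some direction), unless `c_b x ^ b A = c_a x ^ a B`, there is a direction `u` in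
which the faces of `A` and `B` at `a` and `b` are proportional, `c_b x ^ b A_u = c_a x ^ a B_u`, and
`dim N(A B) - dim N(A_u) ≤ 2 M(A + z B) ^ 4 - 17 / 8`.
The same holds for the opposite faces `A`, `B` of any `P`, with `M(P)` in place of `M(A + z B)`, and for
any two levels `A`, `B` of `P` in a direction in which `P` has width at most `N`, with `2 ^ N M(P)`.

Since `dim N(A_u) = dim N(B_u)` is at most `min (dim N(A), dim N(B))`, this contains, for pairs that are
not proportional, the inequality `M(A + z B) ^ 4 ≥ (r + 2) / 2` of my earlier `DimensionGrowth`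
(`r = dim N(A B) - min (dim N(A), dim N(B))`), which it replaces.

The proof: let `w` be a direction in which the lowest parts of `A` and `B` are `c_a x ^ a h` and
`c_b x ^ b h`, and let `W` be the `w`-lowest part of `c_b x ^ b A - c_a x ^ a B`, `D = c_a² + c_b²`.
Then `∫ log (|A|² + |B|²) ≥ ∫ log (D² |h|² + |W|²) - log D`, and the last integral grows with
`dim N(W h) - dim N(h)`.  A direction `w` in the normal cone of the vertex, with `W` above the vertex,
for which `dim N(W h)` is maximal, has `dim N(W h) ≥ dim N(A B) - 1`.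
-/

set_option autoImplicit false

namespace Pool.Agent.Results.MP_6d22ea_nt.BalancedPairs

noncomputable section

/-- Value of an integer polynomial in `k` variables at the torus point
`(exp (2 π i t_1), …, exp (2 π i t_k))`. -/
def value {k : ℕ} (F : MvPolynomial (Fin k) ℤ) (t : Fin k → ℝ) : ℂ :=
  MvPolynomial.eval (fun j : Fin k => Complex.exp (2 * (Real.pi : ℂ) * Complex.I * ((t j : ℝ) : ℂ)))
    (MvPolynomial.map (Int.castRingHom ℂ) F)

/-- The Mahler measure of an integer polynomial in `k` variables. -/
def mahler {k : ℕ} (F : MvPolynomial (Fin k) ℤ) : ℝ :=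
  Real.exp (∫ t in Set.Icc (0 : Fin k → ℝ) 1, Real.log ‖value F t‖)

/-- The dimension of the affine hull of the exponent vectors of `F` (the dimension of its Newton
polytope). -/
def newtonDim {k : ℕ} (F : MvPolynomial (Fin k) ℤ) : ℕ :=
  Module.finrank ℚ (vectorSpan ℚ ((fun s : Fin k →₀ ℕ => fun i : Fin k => ((s i : ℕ) : ℚ)) ''
    (F.support : Set (Fin k →₀ ℕ))))

/-- The polynomial `F + z_0 G` for `F`, `G` in the variables `z_1, …, z_k`. -/
def linear {k : ℕ} (F G : MvPolynomial (Fin k) ℤ) : MvPolynomial (Fin (k + 1)) ℤ :=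
  MvPolynomial.rename Fin.succ F + MvPolynomial.X 0 * MvPolynomial.rename Fin.succ G

/-- The weight of an exponent vector in the direction `w`. -/
def weight {k : ℕ} (w : Fin k → ℤ) (m : Fin k →₀ ℕ) : ℤ := ∑ i, w i * (m i : ℤ)

/-- The sum of the terms of weight `n` of a polynomial. -/
def level {k : ℕ} (w : Fin k → ℤ) (n : ℤ) (P : MvPolynomial (Fin k) ℤ) : MvPolynomial (Fin k) ℤ :=
  ∑ m ∈ P.support.filter (fun m => weight w m = n), MvPolynomial.monomial m (P.coeff m)

/-- `c_b x ^ b A - c_a x ^ a B`, with the coefficients `c_a` of `A` and `c_b` of `B`. -/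
def difference {k : ℕ} (A B : MvPolynomial (Fin k) ℤ) (a b : Fin k →₀ ℕ) :
    MvPolynomial (Fin k) ℤ :=
  MvPolynomial.monomial b (B.coeff b) * A - MvPolynomial.monomial a (A.coeff a) * B

/-- A vertex `(a, b)` of the pair `A`, `B`: in some direction `a` and `b` are the unique minima on the
exponents of `A` and of `B`. -/
def PairVertex {k : ℕ} (A B : MvPolynomial (Fin k) ℤ) (a b : Fin k →₀ ℕ) : Prop :=
  a ∈ A.support ∧ b ∈ B.support ∧ ∃ w : Fin k → ℤ,
    (∀ m ∈ A.support, m ≠ a → weight w a < weight w m) ∧
      ∀ m ∈ B.support, m ≠ b → weight w b < weight w m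

/-- In the direction `w`, `a` and `b` are minimal on the exponents of `A` and of `B`, and the lowest
parts of `c_b x ^ b A` and `c_a x ^ a B` are equal. -/
def PairBalanced {k : ℕ} (A B : MvPolynomial (Fin k) ℤ) (a b : Fin k →₀ ℕ) (w : Fin k → ℤ) : Prop :=
  (∀ m ∈ A.support, weight w a ≤ weight w m) ∧ (∀ m ∈ B.support, weight w b ≤ weight w m) ∧
    MvPolynomial.monomial b (B.coeff b) * level w (weight w a) A =
      MvPolynomial.monomial a (A.coeff a) * level w (weight w b) B

/-- The constant `1` for the lowest and the highest level, and `2 ^ N` for other pairs of levels of a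
polynomial of width at most `N`. -/
def factor (N i j : ℕ) : ℝ := if i = 0 ∧ j = N then 1 else 2 ^ N

theorem result :
    (∀ (k : ℕ) (A B : MvPolynomial (Fin k) ℤ) (a b : Fin k →₀ ℕ), PairVertex A B a b →
      difference A B a b ≠ 0 → ∃ u : Fin k → ℤ, PairBalanced A B a b u ∧
        (newtonDim (A * B) : ℝ) - newtonDim (level u (weight u a) A) ≤
          2 * mahler (linear A B) ^ 4 - 17 / 8) ∧
    (∀ (k : ℕ) (P A B : MvPolynomial (Fin k) ℤ) (w : Fin k → ℤ) (n : ℤ) (N i j : ℕ),
      (∀ m ∈ P.support, n ≤ weight w m ∧ weight w m ≤ n + N) →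
      A = level w (n + i) P → B = level w (n + j) P →
      ∀ a b : Fin k →₀ ℕ, PairVertex A B a b →
      difference A B a b ≠ 0 → ∃ u : Fin k → ℤ, PairBalanced A B a b u ∧
        (newtonDim (A * B) : ℝ) - newtonDim (level u (weight u a) A) ≤
          2 * (factor N i j * mahler P) ^ 4 - 17 / 8) := by
  have hlin : ∀ (k : ℕ) (A B : MvPolynomial (Fin k) ℤ), A ≠ 0 →
      mahler (linear A B) = Real.exp (Pool.Agent.H261R2.CM.mx A B) := fun k A B hA =>
    Pool.Agent.H887R3.LW.mM_lin A B hA
  have key : ∀ (k : ℕ) (A B : MvPolynomial (Fin k) ℤ) (a b : Fin k →₀ ℕ), PairVertex A B a b →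
      difference A B a b ≠ 0 → ∃ u : Fin k → ℤ, PairBalanced A B a b u ∧
        (newtonDim (A * B) : ℝ) - newtonDim (level u (weight u a) A) ≤
          2 * Real.exp (Pool.Agent.H261R2.CM.mx A B) ^ 4 - 17 / 8 := by
    rintro k A B a b ⟨ha, hb, hw⟩ hd
    obtain ⟨u, hu, h⟩ := Pool.Agent.R328.GD.balanced_pair' ha hb hw (sub_ne_zero.1 hd)
    refine ⟨u, hu, ?_⟩
    have h' : 8 * (newtonDim (A * B) : ℝ) + 17 ≤
      16 * Real.exp (Pool.Agent.H261R2.CM.mx A B) ^ 4 +
        8 * (newtonDim (level u (weight u a) A) : ℝ) := h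
    linarith
  refine ⟨?_, ?_⟩
  · intro k A B a b hv hd
    rw [hlin k A B (MvPolynomial.support_nonempty.1 ⟨a, hv.1⟩)]
    exact key k A B a b hv hd
  · rintro k P A B w n N i j hr rfl rfl a b hv hd
    obtain ⟨u, hu, h⟩ := key k _ _ a b hv hd
    refine ⟨u, hu, h.trans ?_⟩
    have hA : level w (n + i) P ≠ 0 := MvPolynomial.support_nonempty.1 ⟨a, hv.1⟩
    have h1 : Real.exp (Pool.Agent.H261R2.CM.mx (level w (n + i) P) (level w (n + j) P)) ≤
        factor N i j * mahler P := by
      unfold factor
      split_ifs with hij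
      · obtain ⟨rfl, rfl⟩ := hij
        rw [one_mul]
        have e0 : n + ((0 : ℕ) : ℤ) = n := by simp
        rw [e0] at hA ⊢
        exact Pool.Agent.R328.GD.opp_le hr hA
      · exact Pool.Agent.R328.GD.level_le hr hA
    have h2 := pow_le_pow_left₀ (Real.exp_pos _).le h1 4
    linarith

end

end Pool.Agent.Results.MP_6d22ea_nt.BalancedPairs
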