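import Pool.Agent.W110.PF.F

/-!
# Boyd's conjecture for families of matrices with bounded mean log condition

Let `A(z) = z ^ (-d) P(z)` be a matrix, of any size `n`, of Laurent polynomials with integer
coefficients in any number `k` of variables `z = (z_1, …, z_k)`, and `g(z_0) = h(z_0) / z_0 ^ m` a
nonconstant Laurent polynomial with integer coefficients in a further variable (for example `z_0` or
`z_0 + 1 / z_0`). Let `F = det (h(z_0) z ^ d - z_0 ^ m P(z))`; for `g = z_0` it is, up to a monomial,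
the characteristic polynomial of `A(z)`. Let `G_i` be the `i`-th diagonal minor of the same matrix
and let `b / a` be the fraction `G_i / F` in lowest terms, that is, up to a monomial, the diagonal
entry of the resolvent `(g(z_0) - A(z))⁻¹`. If the common divisors of `F` and `G_i` have measure `1`
(for instance if `F` is irreducible and `h` is of degree larger than `m`) then `M(a) = M(F)`.

We suppose that at almost all points of the torus `A(z)` is diagonalisable, `A = S D S⁻¹`, and that
the mean over the torus of the logarithm of `1 + ∑ j, |S_ij| |(S⁻¹)_ji|`, for this one `i`, is at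
most `κ(M(a))`, where `κ` is a monotone function, given once and for all. For `g = z_0` it is enough
that `A = S B S⁻¹` where `B`, in an orthogonal decomposition, is the sum of a contraction and of a
matrix that does not decrease norms, and the mean of the logarithm of
`1 + (∑ |S_ij| ^ 2) ^ (1/2) (∑ |(S⁻¹)_ji| ^ 2) ^ (1/2)` is at most `κ(M(a))`. The matrix `S` may depend
on the point in any way and its condition number may be unbounded.

The set of all the measures `M(a)`, for all sizes, numbers of variables, matrices and `i`, has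
bounded companions: for every `B` the measures below `B` are measures of polynomials having a coprime
companion of bounded height. Hence the closure of the monoid generated by these measures and by any
other class with bounded companions consists of Mahler measures of integer polynomials in several
variables, it has a gap above `1`, and below every bound it has finite Cantor-Bendixson rank.
-/

set_option autoImplicit false

namespace Pool.Agent.Results.MP_6d22ea_nt.ConditionedFamilies

open MeasureTheory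

noncomputable section

/-- Value of an integer polynomial in `k` variables at the torus point
`(exp (2 π i t_1), …, exp (2 π i t_k))`. -/
def value {k : ℕ} (F : MvPolynomial (Fin k) ℤ) (t : Fin k → ℝ) : ℂ :=
  MvPolynomial.eval
    (fun j : Fin k => Complex.exp (2 * (Real.pi : ℂ) * Complex.I * ((t j : ℝ) : ℂ)))
    (MvPolynomial.map (Int.castRingHom ℂ) F)

/-- The Mahler measure of an integer polynomial in `k` variables. -/
def mahler {k : ℕ} (F : MvPolynomial (Fin k) ℤ) : ℝ :=
  Real.exp (∫ t in Set.Icc (0 : Fin k → ℝ) 1, Real.log ‖value F t‖)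

/-- The integral of `log max(|F|, |G|)` over the torus. -/
def pairHeight {k : ℕ} (F G : MvPolynomial (Fin k) ℤ) : ℝ :=
  ∫ t in Set.Icc (0 : Fin k → ℝ) 1, Real.log (max ‖value F t‖ ‖value G t‖)

/-- The set of the Mahler measures of the nonzero integer polynomials in any number of variables. -/
def allMeasures : Set ℝ :=
  {x : ℝ | ∃ k : ℕ, 1 ≤ k ∧ ∃ F : MvPolynomial (Fin k) ℤ, F ≠ 0 ∧ x = mahler F}

/-- The Mahler measures of the nonzero polynomials `F` having a coprime companion `G ≠ 0` with
`∫ log max(|F|, |G|) ≤ K`. -/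
def L (K : ℝ) : Set ℝ :=
  {x : ℝ | ∃ k : ℕ, 1 ≤ k ∧ ∃ F G : MvPolynomial (Fin k) ℤ, F ≠ 0 ∧ G ≠ 0 ∧ IsRelPrime F G ∧
    pairHeight F G ≤ K ∧ x = mahler F}

/-- For every `B` some `L K` contains all elements of `T` below `B`. -/
def BoundedCompanions (T : Set ℝ) : Prop := ∀ B : ℝ, ∃ K : ℝ, T ∩ Set.Iio B ⊆ L K

/-- The matrix of Laurent polynomials `z ^ (-d) P(z)` at a point of the torus. -/
def laurent {k n : ℕ} (P : Matrix (Fin n) (Fin n) (MvPolynomial (Fin k) ℤ)) (d : Fin k →₀ ℕ)
    (t : Fin k → ℝ) : Matrix (Fin n) (Fin n) ℂ :=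
  Matrix.of fun i j => (value (MvPolynomial.monomial d 1) t)⁻¹ * value (P i j) t

/-- The matrix `h(z_0) z ^ d - z_0 ^ m P(z)` of polynomials in `z_0, z_1, …, z_k`. -/
def pencil {k n : ℕ} (h : Polynomial ℤ) (m : ℕ)
    (P : Matrix (Fin n) (Fin n) (MvPolynomial (Fin k) ℤ)) (d : Fin k →₀ ℕ) :
    Matrix (Fin n) (Fin n) (MvPolynomial (Fin (k + 1)) ℤ) :=
  Matrix.of fun i j => (if i = j then Polynomial.aeval (MvPolynomial.X 0) h *
    MvPolynomial.rename Fin.succ (MvPolynomial.monomial d 1) else 0) -
    MvPolynomial.X 0 ^ m * MvPolynomial.rename Fin.succ (P i j)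

/-- The matrix `A` is diagonalised by a matrix `S` with inverse `T` such that the sum over `j` of
`|S i j| |T j i|` is at most `r`. -/
def Diagonalised (n : ℕ) (i : Fin n) (r : ℝ) (A : Matrix (Fin n) (Fin n) ℂ) : Prop :=
  ∃ (S T : Matrix (Fin n) (Fin n) ℂ) (e : Fin n → ℂ),
    S * T = 1 ∧ A = S * Matrix.diagonal e * T ∧ ∑ j, ‖S i j‖ * ‖T j i‖ ≤ r

/-- The sum of the squares of the absolute values of the coordinates. -/
def sqNorm {n : ℕ} (x : Fin n → ℂ) : ℝ := ∑ i, ‖x i‖ ^ 2

/-- There is a matrix `S` with inverse `T` such that `B = T A S` commutes with an orthogonal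
projection `E`, does not increase norms on the range of `E` and does not decrease norms on the
orthogonal complement, and the norms of the `i`-th row of `S` and of the `i`-th column of `T` have
product at most `r`. -/
def Adapted (n : ℕ) (i : Fin n) (r : ℝ) (A : Matrix (Fin n) (Fin n) ℂ) : Prop :=
  ∃ S T B E : Matrix (Fin n) (Fin n) ℂ, S * T = 1 ∧ A = S * B * T ∧
    E.conjTranspose = E ∧ E * E = E ∧ B * E = E * B ∧
    (∀ x, sqNorm ((B * E).mulVec x) ≤ sqNorm (E.mulVec x)) ∧
    (∀ x, sqNorm ((1 - E).mulVec x) ≤ sqNorm ((B * (1 - E)).mulVec x)) ∧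
    (∑ j, ‖S i j‖ ^ 2) * (∑ j, ‖T j i‖ ^ 2) ≤ r ^ 2

/-- For almost all points `t` of the torus the matrix `A t` satisfies the condition `C` with the
constant `r t ≥ 0`, and the mean of `log (1 + r t)` over the torus is at most `K`. -/
def MeanLog {k n : ℕ} (K : ℝ) (C : ℝ → Matrix (Fin n) (Fin n) ℂ → Prop)
    (A : (Fin k → ℝ) → Matrix (Fin n) (Fin n) ℂ) : Prop :=
  ∃ r : (Fin k → ℝ) → ℝ, (∀ t, 0 ≤ r t) ∧
    IntegrableOn (fun t => Real.log (1 + r t)) (Set.Icc (0 : Fin k → ℝ) 1) ∧
    ∫ t in Set.Icc (0 : Fin k → ℝ) 1, Real.log (1 + r t) ≤ K ∧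
    ∀ᵐ t ∂(volume.restrict (Set.Icc (0 : Fin k → ℝ) 1)), C (r t) (A t)

/-- The Mahler measures of the denominators `a` of the reduced fractions `b / a` of the quotients of
the `i`-th minor and the determinant of the pencil, if the mean log of the constant in the condition
`C` is at most `κ (M(a))`. -/
def measures (h : Polynomial ℤ) (m : ℕ) (κ : ℝ → ℝ)
    (C : ∀ n : ℕ, Fin n → ℝ → Matrix (Fin n) (Fin n) ℂ → Prop) : Set ℝ :=
  {x : ℝ | ∃ (k n : ℕ) (P : Matrix (Fin n) (Fin n) (MvPolynomial (Fin k) ℤ)) (d : Fin k →₀ ℕ)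
    (i : Fin n) (D a b : MvPolynomial (Fin (k + 1)) ℤ), (pencil h m P d).det = D * a ∧
    (pencil h m P d).adjugate i i = D * b ∧ b ≠ 0 ∧ IsRelPrime a b ∧
    MeanLog (κ (mahler a)) (C n i) (laurent P d) ∧ x = mahler a}

theorem result (h : Polynomial ℤ) (m : ℕ)
    (hg : ∀ c : ℤ, h ≠ Polynomial.C c * Polynomial.X ^ m) (κ : ℝ → ℝ) (hκ : Monotone κ) :
    BoundedCompanions (measures h m κ Diagonalised ∪ measures Polynomial.X 0 κ Adapted) ∧
    (∀ T : Set ℝ, BoundedCompanions T → ∃ M : Submonoid ℝ,
      M = Submonoid.closure (T ∪ (measures h m κ Diagonalised ∪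
        measures Polynomial.X 0 κ Adapted)) ∧
      BoundedCompanions (M : Set ℝ) ∧ closure (M : Set ℝ) ⊆ allMeasures ∧
      (∃ δ : ℝ, 1 < δ ∧ ∀ x ∈ M, x = 1 ∨ δ ≤ x) ∧
      ∀ B : ℝ, ∃ s : ℕ, ∀ x ∈ derivedSet^[s] (M : Set ℝ), B ≤ x) ∧
    ∀ (k n : ℕ) (P : Matrix (Fin n) (Fin n) (MvPolynomial (Fin k) ℤ)) (d : Fin k →₀ ℕ)
      (i : Fin n),
      ((m < h.natDegree ∧ Irreducible (pencil h m P d).det) ∨
        (∀ D, D ∣ (pencil h m P d).det → D ∣ (pencil h m P d).adjugate i i → mahler D = 1) →
        MeanLog (κ (mahler (pencil h m P d).det)) (Diagonalised n i) (laurent P d) →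
        mahler (pencil h m P d).det ∈ measures h m κ Diagonalised) ∧
      (Irreducible (pencil Polynomial.X 0 P d).det ∨
        (∀ D, D ∣ (pencil Polynomial.X 0 P d).det →
          D ∣ (pencil Polynomial.X 0 P d).adjugate i i → mahler D = 1) →
        MeanLog (κ (mahler (pencil Polynomial.X 0 P d).det)) (Adapted n i) (laurent P d) →
        mahler (pencil Polynomial.X 0 P d).det ∈ measures Polynomial.X 0 κ Adapted) := by
  have hgX : ∀ c : ℤ, (Polynomial.X : Polynomial ℤ) ≠ Polynomial.C c * Polynomial.X ^ 0 := by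
    intro c h1
    rw [pow_zero, mul_one] at h1
    have h2 := congrArg Polynomial.natDegree h1
    rw [Polynomial.natDegree_X, Polynomial.natDegree_C] at h2
    omega
  have hk := Pool.Agent.Y820.LB.kp_ne_of h m hg
  obtain ⟨α, hα⟩ := Pool.Agent.W110.PF.subC_le (Pool.Agent.H261R2.CM.toC h) m
  have b1 : Pool.Agent.TH845.KN.BC (Pool.Agent.W110.PF.RD h m κ Diagonalised) := by
    refine Pool.Agent.W110.PF.RD_BC h m hg κ hκ Diagonalised α ?_
    rintro n i r A hr ⟨S, T, e, h1, h2, h3⟩
    exact (Pool.Agent.W110.PF.PB_diag h m hk h1 h2 i r h3).mono (hα r hr)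
  have b2 : Pool.Agent.TH845.KN.BC (Pool.Agent.W110.PF.RD Polynomial.X 0 κ Adapted) := by
    refine Pool.Agent.W110.PF.RD_BC Polynomial.X 0 hgX κ hκ Adapted (8 * Real.log 2) ?_
    rintro n i r A hr ⟨S, T, B, E, h1, h2, h3, h4, h5, h6, h7, h8⟩
    refine (Pool.Agent.W110.PF.PB_adapted
      (Pool.Agent.W110.PF.AdC_of _ S T B E h1 h2 h3 h4 h5 h6 h7) i h8 hr).mono ?_
    have h9 : 0 ≤ Real.log (1 + r) := Real.log_nonneg (by linarith)
    linarith
  have b3 := Pool.Agent.TH845.KN.BC.union b1 b2
  refine ⟨b3, ?_, ?_⟩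
  · intro T hT
    have h1 : Pool.Agent.TH845.KN.BC
        ((Submonoid.closure (T ∪ (measures h m κ Diagonalised ∪
          measures Polynomial.X 0 κ Adapted)) : Submonoid ℝ) : Set ℝ) :=
      Pool.Agent.TH845.KN.BC_monoid (Pool.Agent.TH845.KN.BC.union hT b3)
    obtain ⟨h2, h3⟩ := Pool.Agent.W242.IM.closure_of_LL _ h1
    exact ⟨_, rfl, h1, h2, Pool.Agent.TH845.KN.gap_BC h1, h3⟩
  · intro k n P d i
    constructor
    · intro hc hM
      refine Pool.Agent.W110.PF.RD_mem h m hg κ Diagonalised P d i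
        (Pool.Agent.W110.PF.adj_ne h m hg P d i) ?_ hM
      rcases hc with ⟨h1, h2⟩ | h1
      · exact Pool.Agent.W110.PF.irr_gcd h m h1 P d i h2
      · exact h1
    · intro hc hM
      refine Pool.Agent.W110.PF.RD_mem Polynomial.X 0 hgX κ Adapted P d i
        (Pool.Agent.W110.PF.adj_ne Polynomial.X 0 hgX P d i) ?_ hM
      rcases hc with h1 | h1
      · exact Pool.Agent.W110.PF.irr_gcd Polynomial.X 0 (by simp) P d i h1
      · exact h1

end

end Pool.Agent.Results.MP_6d22ea_nt.ConditionedFamilies
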