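import Pool.Agent.R719.TC.Net

/-!
# Boyd's conjecture for polynomials that dominate coprime polynomials

`L K` is the set of the Mahler measures of the nonzero integer polynomials `F` (in any number of
variables) having a coprime companion `G` with `∫ log max(|F|, |G|) ≤ K`; it is closed (starting
file `ClosedExhaustion`).

* One may use tuples of companions: if no irreducible common factor of `F`, `G_1, …, G_r` has
  Mahler measure greater than one and `∫ log max(|F|, ∑ |G_i|) ≤ K`, then `M(F)` is in `L K`.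
* `dominating c` is the set of the measures of the `F` with `∑ |G_i| ≤ c |F|` on the torus, where
  no common irreducible factor of the `G_i` has measure greater than one.  Its elements `x` are in
  `L (log x + log⁺ c)`.  The monoid generated by it and by any class with bounded companions has
  its closure in Boyd's set, a gap above one, and finite Cantor-Bendixson rank below every bound.
* The class contains the measures of `∑ |g_i| ^ 2`, of Gram determinants `det (W W*)` of arbitrary
  size, of the Laplace determinants of all periodic graphs (the growth rates of the numbers of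
  spanning trees), of weighted diagonally dominant matrices of arbitrary size, and of the values of
  real definite forms.
-/

set_option autoImplicit false

namespace Pool.Agent.Results.MP_6d22ea_nt.DominatingPolynomials

open MeasureTheory

noncomputable section

/-- Value of an integer polynomial in `k` variables at the torus point
`(exp (2 π i t_1), …, exp (2 π i t_k))`. -/
def value {k : ℕ} (F : MvPolynomial (Fin k) ℤ) (t : Fin k → ℝ) : ℂ :=
  MvPolynomial.eval (fun j : Fin k => Complex.exp (2 * (Real.pi : ℂ) * Complex.I * ((t j : ℝ) : ℂ)))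
    (MvPolynomial.map (Int.castRingHom ℂ) F)

/-- The Mahler measure of an integer polynomial in `k` variables. -/
def mahler {k : ℕ} (F : MvPolynomial (Fin k) ℤ) : ℝ :=
  Real.exp (∫ t in Set.Icc (0 : Fin k → ℝ) 1, Real.log ‖value F t‖)

/-- The set of the Mahler measures of the nonzero integer polynomials in any number of variables. -/
def allMeasures : Set ℝ :=
  {x : ℝ | ∃ k : ℕ, 1 ≤ k ∧ ∃ F : MvPolynomial (Fin k) ℤ, F ≠ 0 ∧ x = mahler F}

/-- The integral of `log max(|F|, |G|)` over the torus. -/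
def pairHeight {k : ℕ} (F G : MvPolynomial (Fin k) ℤ) : ℝ :=
  ∫ t in Set.Icc (0 : Fin k → ℝ) 1, Real.log (max ‖value F t‖ ‖value G t‖)

/-- The Mahler measures of the nonzero polynomials `F` having a coprime companion `G ≠ 0` with
`∫ log max(|F|, |G|) ≤ K`. -/
def L (K : ℝ) : Set ℝ :=
  {x : ℝ | ∃ k : ℕ, 1 ≤ k ∧ ∃ F G : MvPolynomial (Fin k) ℤ, F ≠ 0 ∧ G ≠ 0 ∧ IsRelPrime F G ∧
    pairHeight F G ≤ K ∧ x = mahler F}

/-- For every `B` some `L K` contains all elements of `T` below `B`. -/
def BoundedCompanions (T : Set ℝ) : Prop := ∀ B : ℝ, ∃ K : ℝ, T ∩ Set.Iio B ⊆ L K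

/-- The integral of `log max(|F|, |G_1| + … + |G_r|)` over the torus. -/
def tupleHeight {k r : ℕ} (F : MvPolynomial (Fin k) ℤ) (G : Fin r → MvPolynomial (Fin k) ℤ) : ℝ :=
  ∫ t in Set.Icc (0 : Fin k → ℝ) 1, Real.log (max ‖value F t‖ (∑ i, ‖value (G i) t‖))

/-- No irreducible common factor of the `G i` has Mahler measure different from one. -/
def NoCommonFactor {k : ℕ} {ι : Type} (G : ι → MvPolynomial (Fin k) ℤ) : Prop :=
  ∀ h : MvPolynomial (Fin k) ℤ, Irreducible h → (∀ i, h ∣ G i) → mahler h = 1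

/-- The measures of the polynomials `F` such that `|G_1| + … + |G_r| ≤ c |F|` on the torus for some
`G_1, …, G_r` without common factor. -/
def dominating (c : ℝ) : Set ℝ :=
  {x : ℝ | ∃ k : ℕ, 1 ≤ k ∧ ∃ F : MvPolynomial (Fin k) ℤ, F ≠ 0 ∧ ∃ (r : ℕ)
    (G : Fin r → MvPolynomial (Fin k) ℤ), NoCommonFactor G ∧
    (∀ t : Fin k → ℝ, ∑ i, ‖value (G i) t‖ ≤ c * ‖value F t‖) ∧ x = mahler F}

/-- The values of the entries of a matrix. -/
def valueMatrix {k n N : ℕ} (W : Matrix (Fin n) (Fin N) (MvPolynomial (Fin k) ℤ))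
    (t : Fin k → ℝ) : Matrix (Fin n) (Fin N) ℂ := W.map fun P => value P t

/-- `F` is, up to a monomial, the Gram determinant `det (W W*)`: the absolute values agree on the
torus. -/
def IsGram {k n N : ℕ} (F : MvPolynomial (Fin k) ℤ)
    (W : Matrix (Fin n) (Fin N) (MvPolynomial (Fin k) ℤ)) : Prop :=
  ∀ t : Fin k → ℝ, ‖(valueMatrix W t * (valueMatrix W t).conjTranspose).det‖ = ‖value F t‖

/-- A column with at most one nonzero entry, which is a monomial with coefficient one. -/
def IsEntry {k n : ℕ} (f : Fin n → MvPolynomial (Fin k) ℤ) : Prop :=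
  f = 0 ∨ ∃ (p : Fin n) (w : MvPolynomial (Fin k) ℤ),
    (w = 0 ∨ ∃ a, w = MvPolynomial.monomial a 1) ∧ f = Pi.single p w

/-- `W` is the incidence matrix of a periodic graph: every column is a difference `x^a e_p - x^b e_q`
(possibly `p = q`; an edge) or has at most one nonzero entry, a monomial up to sign. -/
def IsIncidence {k n N : ℕ} (W : Matrix (Fin n) (Fin N) (MvPolynomial (Fin k) ℤ)) : Prop :=
  ∀ l, ∃ f g : Fin n → MvPolynomial (Fin k) ℤ, IsEntry f ∧ IsEntry g ∧ (fun i => W i l) = f - g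

/-- The length (sum of the absolute values of the coefficients). -/
def length {k : ℕ} (F : MvPolynomial (Fin k) ℤ) : ℤ := ∑ s ∈ F.support, |F.coeff s|

/-- In every row `i` of `A` one coefficient, of the monomial `s i` of the entry `σ i`, dominates:
times its weight it is, in absolute value, larger than the sum of the absolute values of all other
coefficients of the row times their weights. -/
def IsDominated {k n : ℕ} (A : Matrix (Fin n) (Fin n) (MvPolynomial (Fin k) ℤ)) : Prop :=
  ∃ (σ : Equiv.Perm (Fin n)) (s : Fin n → Fin k →₀ ℕ) (p : Fin n → ℝ), (∀ i, 0 < p i) ∧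
    ∀ i, (∑ j, (length (A i j) : ℝ) * p j) - |(((A i (σ i)).coeff (s i) : ℤ) : ℝ)| * p (σ i) <
      |(((A i (σ i)).coeff (s i) : ℤ) : ℝ)| * p (σ i)

/-- The polynomial `P` has no nontrivial real zero. -/
def IsDefinite {r : ℕ} (P : MvPolynomial (Fin r) ℤ) : Prop :=
  ∀ y : Fin r → ℝ, MvPolynomial.eval₂ (Int.castRingHom ℝ) y P = 0 → y = 0

/-- All quotients of the `g i` are real on the torus (for instance self-reciprocal polynomials with
the same center). -/
def RealRatios {k r : ℕ} (g : Fin r → MvPolynomial (Fin k) ℤ) : Prop :=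
  ∀ (t : Fin k → ℝ) (i j : Fin r), (value (g i) t * star (value (g j) t)).im = 0

theorem result :
    (∀ (k r : ℕ) (F : MvPolynomial (Fin k) ℤ) (G : Fin r → MvPolynomial (Fin k) ℤ), 1 ≤ k →
      F ≠ 0 → (∀ h : MvPolynomial (Fin k) ℤ, Irreducible h → h ∣ F → (∀ i, h ∣ G i) →
        mahler h = 1) → mahler F ∈ L (tupleHeight F G)) ∧
    (∀ c x : ℝ, x ∈ dominating c → x ∈ L (Real.log x + Real.log (max 1 c))) ∧
    (∀ (k r : ℕ) (F : MvPolynomial (Fin k) ℤ) (G : Fin r → MvPolynomial (Fin k) ℤ) (c : ℝ),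
      F ≠ 0 → (∀ i, G i ≠ 0) → 0 < c →
      (∀ t : Fin k → ℝ, ∑ i, ‖value (G i) t‖ ≤ c * ‖value F t‖) → (r : ℝ) ≤ c * mahler F) ∧
    (∀ (c : ℝ) (T : Set ℝ), BoundedCompanions T →
      BoundedCompanions (Submonoid.closure (T ∪ dominating c) : Submonoid ℝ) ∧
      closure ((Submonoid.closure (T ∪ dominating c) : Submonoid ℝ) : Set ℝ) ⊆ allMeasures ∧
      (∃ δ : ℝ, 1 < δ ∧ ∀ x ∈ (Submonoid.closure (T ∪ dominating c) : Submonoid ℝ),
        x = 1 ∨ δ ≤ x) ∧
      ∀ B : ℝ, ∃ m : ℕ, ∀ x ∈ derivedSet^[m]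
        ((Submonoid.closure (T ∪ dominating c) : Submonoid ℝ) : Set ℝ), B ≤ x) ∧
    (∀ (k r m : ℕ) (F : MvPolynomial (Fin k) ℤ) (g : Fin r → MvPolynomial (Fin k) ℤ) (c : ℝ),
      1 ≤ k → F ≠ 0 → NoCommonFactor g →
      (∀ t : Fin k → ℝ, ∑ i, ‖value (g i) t‖ ^ m ≤ c * ‖value F t‖) →
        mahler F ∈ dominating c) ∧
    (∀ (k n N : ℕ) (F : MvPolynomial (Fin k) ℤ)
      (W : Matrix (Fin n) (Fin N) (MvPolynomial (Fin k) ℤ)), 1 ≤ k → F ≠ 0 → IsGram F W →
      (Nat.card {I : Fin n → Fin N // StrictMono I ∧ (W.submatrix id I).det ≠ 0} : ℝ) ≤ mahler F ∧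
      (NoCommonFactor (fun I : {I : Fin n → Fin N // StrictMono I} => (W.submatrix id I.1).det) →
        mahler F ∈ dominating 1) ∧
      (IsIncidence W → mahler F ∈ dominating 1)) ∧
    (∀ (k n : ℕ) (A : Matrix (Fin n) (Fin n) (MvPolynomial (Fin k) ℤ)), 1 ≤ k →
      IsDominated A → A.det ≠ 0 ∧ mahler A.det ∈ dominating 1) ∧
    (∀ (r m : ℕ) (P : MvPolynomial (Fin r) ℤ), P.IsHomogeneous m → IsDefinite P →
      ∃ c : ℝ, ∀ (k : ℕ) (g : Fin r → MvPolynomial (Fin k) ℤ), 1 ≤ k → NoCommonFactor g →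
        RealRatios g → MvPolynomial.bind₁ g P ≠ 0 ∧
          mahler (MvPolynomial.bind₁ g P) ∈ dominating c) := by
  refine ⟨?_, ?_, ?_, ?_, ?_, ?_, ?_, ?_⟩
  · intro k r F G hk hF h
    exact Pool.Agent.R719.TC.mem_LL hk F hF G h
  · intro c x hx
    exact Pool.Agent.R719.TC.Dom_mem hx
  · intro k r F G c hF hG hc h
    have := Pool.Agent.R719.TC.amgm hF G hG hc h
    rwa [Fintype.card_fin] at this
  · intro c T hT
    have h1 : Pool.Agent.TH845.KN.BC
        ((Submonoid.closure (T ∪ dominating c) : Submonoid ℝ) : Set ℝ) :=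
      Pool.Agent.TH845.KN.BC_monoid
        (Pool.Agent.TH845.KN.BC.union hT (Pool.Agent.R719.TC.BC_Dom c))
    obtain ⟨h2, h3⟩ := Pool.Agent.W242.IM.closure_of_LL _ h1
    exact ⟨h1, h2, Pool.Agent.TH845.KN.gap_BC h1, h3⟩
  · intro k r m F g c hk hF hg h
    exact Pool.Agent.R719.TC.Dom_pow hk hF g hg m h
  · intro k n N F W hk hF hW
    refine ⟨Pool.Agent.R719.TC.card_gram hF W hW, ?_, ?_⟩
    · intro h
      refine Pool.Agent.R719.TC.Dom_gram hk hF W ?_ hW
      intro q hq hall
      exact h q hq fun I => hall I.1 I.2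
    · intro h
      exact Pool.Agent.R719.TC.Dom_net hk hF W h hW
  · rintro k n A hk ⟨σ, s, p, hp, h⟩
    refine Pool.Agent.R719.TC.Dom_matrix hk A σ s p hp fun i => ?_
    have h1 := h i
    have h2 : ∑ j, ((Pool.Agent.R719.TC.len (A i j) : ℤ) : ℝ) * p j =
        ∑ j, (length (A i j) : ℝ) * p j := rfl
    rw [h2]
    linarith
  · intro r m P hP hdef
    exact Pool.Agent.R719.TC.Dom_form P m hP hdef

end

end Pool.Agent.Results.MP_6d22ea_nt.DominatingPolynomials
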