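import Pool.Agent.W110.PG.D

/-!
# Boyd's conjecture for Hermitian matrices of Laurent polynomials (periodic graphs)

Let `H = z ^ (-d) P(z)` be a matrix of size `n` of Laurent polynomials with integer coefficients in
any number `k` of variables `z = (z_1, …, z_k)` which is Hermitian at all points of the torus, that
is `H_ij(z) = H_ji(1/z)`; for instance the adjacency operator of a periodic graph (a graph with a free
action of `ℤ ^ k` with `n` orbits of vertices, possibly with signs, weights and loops). Let `F` be
the polynomial `det ((z_0 ^ 2 + 1) z ^ d - z_0 P(z))` in `k + 1` variables, that is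
`χ_H (z_0 + 1 / z_0)` up to a monomial, and `M(H) = M(F)`. These polynomials are self-reciprocal.

The set of all the measures `M(H)`, all sizes and all numbers of variables, has bounded companions:
for every `B` the measures below `B` are measures of polynomials having a coprime companion of
bounded height `∫ log max(|F|, |G|)`. Hence the closure of the multiplicative monoid generated by
these measures and by any other class with bounded companions consists of Mahler measures of integer
polynomials in several variables, it has a gap above `1`, and below every bound it has finite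
Cantor-Bendixson rank.

Moreover there is `s(B)`, independent of the size and of the number of variables, such that every
matrix `H` with `M(H) ≤ B` becomes a matrix of measure `1` (spectrum in `[-2, 2]` at all points of
the torus) when at most `s(B)` rows and the same columns are deleted.

Method. For fixed `z` the integral over `z_0` of `log max(|χ_H|, |χ_{H - v}|)`, `v` a row, is
at most `3 log M(H(z)) + 5 log 2` (starting files). A minimal matrix with `M(H) ≠ 1` has bounded
size, because pointwise on the torus its spectrum is near `[-2, 2]` if the size is large, while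
coprime pairs of bounded height in any number of variables have the Lehmer gap. The number of
nonzero entries of a row is at most `4 M(H) ^ 2`, because `∑ |H_ij(z)| ^ 2 ≤ 4 M(H(z)) ^ 2` and the
Mahler measures of the nonzero entries are at least one (arithmetic and geometric mean). A packing
argument gives the deletion of rows, and the pair given by it has bounded height.
-/

set_option autoImplicit false

namespace Pool.Agent.Results.MP_6d22ea_nt.PeriodicHermitian

open MvPolynomial

noncomputable section

/-- Value of an integer polynomial in `k` variables at the torus point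
`(exp (2 π i t_1), …, exp (2 π i t_k))`. -/
def value {k : ℕ} (F : MvPolynomial (Fin k) ℤ) (t : Fin k → ℝ) : ℂ :=
  eval (fun j : Fin k => Complex.exp (2 * (Real.pi : ℂ) * Complex.I * ((t j : ℝ) : ℂ)))
    (map (Int.castRingHom ℂ) F)

/-- The Mahler measure of an integer polynomial in `k` variables. -/
def mahler {k : ℕ} (F : MvPolynomial (Fin k) ℤ) : ℝ :=
  Real.exp (∫ t in Set.Icc (0 : Fin k → ℝ) 1, Real.log ‖value F t‖)

/-- The integral of `log max(|F|, |G|)` over the torus. -/
def pairHeight {k : ℕ} (F G : MvPolynomial (Fin k) ℤ) : ℝ :=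
  ∫ t in Set.Icc (0 : Fin k → ℝ) 1, Real.log (max ‖value F t‖ ‖value G t‖)

/-- The set of the Mahler measures of the nonzero integer polynomials in any number of variables. -/
def allMeasures : Set ℝ :=
  {x : ℝ | ∃ k : ℕ, 1 ≤ k ∧ ∃ F : MvPolynomial (Fin k) ℤ, F ≠ 0 ∧ x = mahler F}

/-- The Mahler measures of the nonzero polynomials `F` having a coprime companion `G ≠ 0` with
`∫ log max(|F|, |G|) ≤ K`. -/
def L (K : ℝ) : Set ℝ :=
  {x : ℝ | ∃ k : ℕ, 1 ≤ k ∧ ∃ F G : MvPolynomial (Fin k) ℤ, F ≠ 0 ∧ G ≠ 0 ∧ IsRelPrime F G ∧
    pairHeight F G ≤ K ∧ x = mahler F}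

/-- For every `B` some `L K` contains all elements of `T` below `B`. -/
def BoundedCompanions (T : Set ℝ) : Prop := ∀ B : ℝ, ∃ K : ℝ, T ∩ Set.Iio B ⊆ L K

/-- The matrix of Laurent polynomials `z ^ (-d) P(z)` at a point of the torus. -/
def laurent {ι : Type} {k : ℕ} (P : Matrix ι ι (MvPolynomial (Fin k) ℤ)) (d : Fin k →₀ ℕ)
    (t : Fin k → ℝ) : Matrix ι ι ℂ :=
  Matrix.of fun i j => (value (monomial d 1) t)⁻¹ * value (P i j) t

/-- The polynomial `det ((z_0 ^ 2 + 1) z ^ d - z_0 P(z))` in `z_0, z_1, …, z_k`: up to a monomial,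
the characteristic polynomial of `z ^ (-d) P(z)` at `z_0 + 1 / z_0`. -/
def traceDet {ι : Type} [Fintype ι] [DecidableEq ι] {k : ℕ}
    (P : Matrix ι ι (MvPolynomial (Fin k) ℤ)) (d : Fin k →₀ ℕ) : MvPolynomial (Fin (k + 1)) ℤ :=
  (Matrix.of fun i j => (if i = j then (X 0 ^ 2 + 1) * rename Fin.succ (monomial d 1) else 0) -
    X 0 * rename Fin.succ (P i j)).det

/-- The measures of the Hermitian matrices of Laurent polynomials, of all sizes and in all numbers of
variables. -/
def hermitianMeasures : Set ℝ :=
  {x : ℝ | ∃ (k n : ℕ) (P : Matrix (Fin n) (Fin n) (MvPolynomial (Fin k) ℤ)) (d : Fin k →₀ ℕ),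
    (∀ t, (laurent P d t).IsHermitian) ∧ x = mahler (traceDet P d)}

theorem result :
    BoundedCompanions hermitianMeasures ∧
    (∀ T : Set ℝ, BoundedCompanions T →
      BoundedCompanions (Submonoid.closure (T ∪ hermitianMeasures) : Submonoid ℝ) ∧
      closure ((Submonoid.closure (T ∪ hermitianMeasures) : Submonoid ℝ) : Set ℝ) ⊆
        allMeasures ∧
      (∃ δ : ℝ, 1 < δ ∧ ∀ x ∈ (Submonoid.closure (T ∪ hermitianMeasures) : Submonoid ℝ),
        x = 1 ∨ δ ≤ x) ∧
      ∀ B : ℝ, ∃ m : ℕ, ∀ x ∈ derivedSet^[m]
        ((Submonoid.closure (T ∪ hermitianMeasures) : Submonoid ℝ) : Set ℝ), B ≤ x) ∧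
    ∀ B : ℝ, ∃ s : ℕ, ∀ (k n : ℕ) (P : Matrix (Fin n) (Fin n) (MvPolynomial (Fin k) ℤ))
      (d : Fin k →₀ ℕ), (∀ t, (laurent P d t).IsHermitian) → mahler (traceDet P d) ≤ B →
      ∃ S : Finset (Fin n), S.card ≤ s ∧
        mahler (traceDet (P.submatrix (Subtype.val : (Sᶜ : Finset (Fin n)) → Fin n)
          Subtype.val) d) = 1 := by
  have hB : Pool.Agent.TH845.KN.BC hermitianMeasures := Pool.Agent.W110.PG.PM_BC
  refine ⟨hB, ?_, ?_⟩
  · intro T hT
    have h1 : Pool.Agent.TH845.KN.BC
        ((Submonoid.closure (T ∪ hermitianMeasures) : Submonoid ℝ) : Set ℝ) :=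
      Pool.Agent.TH845.KN.BC_monoid (Pool.Agent.TH845.KN.BC.union hT hB)
    obtain ⟨h2, h3⟩ := Pool.Agent.W242.IM.closure_of_LL _ h1
    exact ⟨h1, h2, Pool.Agent.TH845.KN.gap_BC h1, h3⟩
  · exact Pool.Agent.W110.PG.PM_delete

end

end Pool.Agent.Results.MP_6d22ea_nt.PeriodicHermitian
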